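import Pool.Agent.K.MP_63de32_gt.C0

set_option autoImplicit false

open Pool.Agent.Lib.PosetForcing Pool.Agent.P.MP_63de32_gt

namespace Pool.Agent.Results.MP_63de32_gt.Independent

/-- Q1 is independent of ZFC: it holds in one model of ZFC and fails in another. -/
theorem result : (∃ (M : Type 2) (mem : M → M → Prop), IsZFC mem ∧ Q1 mem) ∧
    ∃ (M : Type 2) (mem : M → M → Prop), IsZFC mem ∧ ¬ Q1 mem := by
  constructor
  · obtain ⟨U, -⟩ := exists_gen (⊤ : Pos.Col W1 Pos.Tm.{1})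
    exact ⟨Mod U, Mod.mem, isZFC U, Pos.q1 Pos.sc_col countable_Iio_W1 Pos.enum_col U⟩
  · obtain ⟨U, -⟩ := exists_gen (⊤ : PP)
    exact ⟨Mod U, Mod.mem, isZFC U, fun h => not_sequential U (h _ _ _ (isOmega_omega U)
      (isTop U) (isHausdorff U) (isCpt U) (weaklyThetaRef U))⟩

end Pool.Agent.Results.MP_63de32_gt.Independent
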